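import Pool.Agent.N92.BS.Ex

/-!
# The Boij-Söderberg coefficients of `β(ℙ², b; d)` do not always form a unimodal sequence

For `b = d = 3` the Betti table of `M = ⊕_{m ≥ 0} H⁰(ℙ², 𝒪(3 + 3 m))` over the polynomial ring in ten
variables has the entries `10, 72, 225, 399, 441, 315, 147, 45, 10, 1` in the first row (`β_{i,i}`),
`β_{7,8} = 1`, and no others, and its Boij-Söderberg coefficients are `362880, 40320, 5040, 40320`.

The Betti numbers are the dimensions of the homology of the Koszul complex. They are computed from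
the vanishing of `K_{p,2}` (`p ≠ 7`) and `K_{p,q}` (`q ≥ 3`) for the cubic Veronese surface, which follows
from the duality theorem of the starting library (`Pool.Agent.W474.Ver`), and the Euler characteristics of
the strands. The theorem treats every decomposition into pure diagrams along a chain with positive
coefficients, so that the uniqueness of the decomposition is not used.
-/

set_option autoImplicit false

open Pool.Agent.N92.BS

namespace Pool.Agent.Results.MP_86fd08_ag.NotUnimodal

/-- (1) The Boij-Söderberg decomposition of the Betti table for `b = d = 3`. (2) Every such decomposition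
has coefficients `a_{s₁} = 362880`, `a_{s₂} = 5040`, `a_{s₃} = 40320` with `s₁ < s₂ < s₃`. (3) So it is not true
that for all integers `b` and `d ≥ 1` the Boij-Söderberg coefficients form a unimodal sequence. -/
theorem result :
    IsBS (betti 3 3) 4
      ![[0, 1, 2, 3, 4, 5, 6, 7, 8, 9], [0, 1, 2, 3, 4, 5, 6, 7, 8], [0, 1, 2, 3, 4, 5, 6, 7],
        [0, 1, 2, 3, 4, 5, 6, 8]] ![362880, 40320, 5040, 40320] ∧
    (∀ (s : ℕ) (D : Fin s → List ℤ) (a : Fin s → ℚ), IsBS (betti 3 3) s D a →
      ∃ s₁ s₂ s₃ : Fin s, s₁ < s₂ ∧ s₂ < s₃ ∧ a s₁ = 362880 ∧ a s₂ = 5040 ∧ a s₃ = 40320) ∧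
    ¬ ∀ (b : ℤ) (d : ℕ), 1 ≤ d → ∀ (s : ℕ) (D : Fin s → List ℤ) (a : Fin s → ℚ),
      IsBS (betti b d) s D a → Unimodal a := by
  refine ⟨isBS4, fun s D a h => not_uni h, fun h => ?_⟩
  obtain ⟨s₁, s₂, s₃, h12, h23, h1, h2, h3⟩ := not_uni isBS4
  exact not_unimodal_of h12 h23 (by rw [h1, h2]; norm_num) (by rw [h2, h3]; norm_num)
    (h 3 3 (by norm_num) 4 D4 a4 isBS4)

end Pool.Agent.Results.MP_86fd08_ag.NotUnimodal
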