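import Pool.Agent.N92.BT.Fin5

/-!
# Boij-Söderberg coefficients of `β(ℙ², 1; 5)`

For `b = 1`, `d = 5` (so `0 < b < d`) the Betti table of `M = ⊕_{m ≥ 0} H⁰(ℙ², 𝒪(1 + 5 m))` over the
polynomial ring in 21 variables has the rows `3, 35, 120` (`β_{i,i}`, `i = 0, 1, 2`),
`405, 5865, 29988, 97920, 231540, 417690, 590070, 661232, 590070, ..., 405` (`β_{i,i+1}`, `i = 2, ..., 16`)
and `120, 35, 3` (`β_{i,i+2}`, `i = 16, 17, 18`), and its Boij-Söderberg coefficients are
`61737175019520000, 36584992604160000, 61737175019520000`.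

The Betti numbers are the dimensions of the homology of the Koszul complex. They are computed from
`K_{p,0} = 0` for `p ≥ 3`, the duality `K_{p,2} ≅ K_{18-p,0}^*`, `K_{p,q} = 0` for `q ≥ 3`,
`K_{0,1} = K_{1,1} = 0`, and the Euler characteristics of the strands.
-/

set_option autoImplicit false

open Pool.Agent.N92.BS Pool.Agent.N92.BT

namespace Pool.Agent.Results.MP_86fd08_ag.NotUnimodalTwist

/-- (1) The Boij-Söderberg decomposition of the Betti table for `b = 1`, `d = 5`. (2) Its coefficients do not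
form a unimodal sequence. (3) So it is not true that for all integers `0 < b < d` the Boij-Söderberg
coefficients form a unimodal sequence. -/
theorem result :
    IsBS (betti 1 5) 3
      ![[0, 1, 2, 4, 5, 6, 7, 8, 9, 10, 11, 12, 13, 14, 15, 16, 17, 19, 20],
        [0, 1, 2, 4, 5, 6, 7, 8, 9, 10, 11, 12, 13, 14, 15, 16, 18, 19, 20],
        [0, 1, 3, 4, 5, 6, 7, 8, 9, 10, 11, 12, 13, 14, 15, 16, 18, 19, 20]]
      ![61737175019520000, 36584992604160000, 61737175019520000] ∧
    ¬ Unimodal (![61737175019520000, 36584992604160000, 61737175019520000] : Fin 3 → ℚ) ∧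
    ¬ ∀ (b : ℤ) (d : ℕ), 0 < b → b < d → ∀ (s : ℕ) (D : Fin s → List ℤ) (a : Fin s → ℚ),
      IsBS (betti b d) s D a → Unimodal a :=
  ⟨isBS3, not_uni3, fun h => not_uni3 (h 1 5 (by norm_num) (by norm_num) 3 D3 a3 isBS3)⟩

end Pool.Agent.Results.MP_86fd08_ag.NotUnimodalTwist
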